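import Pool.Agent.P8H12.SO.Stm3

/-!
# Package PF/CORE (for helper12)
-/

set_option autoImplicit false

namespace Pool.Agent.P8H76.PF

open Matrix

section

variable {V : Type} [AddCommGroup V]

/-- multiples by residue classes -/
noncomputable def ml (n : ℕ) (P : V) (hP : (n : ℤ) • P = 0) : ZMod n →+ V :=
  ZMod.lift n ⟨zmultiplesHom V P, by simpa using hP⟩

theorem ml_int {n : ℕ} {P : V} (hP : (n : ℤ) • P = 0) (x : ℤ) : ml n P hP (x : ZMod n) = x • P := by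
  unfold ml
  rw [ZMod.lift_coe]
  rfl

theorem ml_mul {n : ℕ} {P : V} (hP : (n : ℤ) • P = 0) (x : ℤ) (m : ZMod n) :
    x • ml n P hP m = ml n P hP ((x : ZMod n) * m) := by
  rw [← map_zsmul, zsmul_eq_mul]

/-- the basis `P`, `Q` of the `n`-torsion -/
structure Bas (n : ℕ) (P Q : V) : Prop where
  hP : (n : ℤ) • P = 0
  hQ : (n : ℤ) • Q = 0
  span : ∀ R : V, (n : ℤ) • R = 0 → ∃ x y : ℤ, R = x • P + y • Q
  ind : ∀ x y : ℤ, x • P + y • Q = 0 → (n : ℤ) ∣ x ∧ (n : ℤ) ∣ y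

/-- coordinates -/
noncomputable def cmb {n : ℕ} {P Q : V} (hB : Bas n P Q) (x y : ZMod n) : V :=
  ml n P hB.hP x + ml n Q hB.hQ y

variable {n : ℕ} {P Q : V} (hB : Bas n P Q)

theorem cmb_int (x y : ℤ) : cmb hB (x : ZMod n) (y : ZMod n) = x • P + y • Q := by
  rw [cmb, ml_int, ml_int]

theorem cmb_add (x y x' y' : ZMod n) : cmb hB (x + x') (y + y') = cmb hB x y + cmb hB x' y' := by
  rw [cmb, cmb, cmb, map_add, map_add]
  abel

theorem cmb_inj {x y x' y' : ZMod n} (h : cmb hB x y = cmb hB x' y') : x = x' ∧ y = y' := by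
  obtain ⟨x, rfl⟩ := ZMod.intCast_surjective x
  obtain ⟨y, rfl⟩ := ZMod.intCast_surjective y
  obtain ⟨x', rfl⟩ := ZMod.intCast_surjective x'
  obtain ⟨y', rfl⟩ := ZMod.intCast_surjective y'
  rw [cmb_int, cmb_int] at h
  have h1 := hB.ind (x - x') (y - y') (by
    rw [sub_smul, sub_smul]
    have h2 : x • P - x' • P + (y • Q - y' • Q) = x • P + y • Q - (x' • P + y' • Q) := by abel
    rw [h2, h, sub_self])
  constructor
  · rw [← sub_eq_zero, ← Int.cast_sub, ZMod.intCast_zmod_eq_zero_iff_dvd]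
    exact h1.1
  · rw [← sub_eq_zero, ← Int.cast_sub, ZMod.intCast_zmod_eq_zero_iff_dvd]
    exact h1.2

variable {G : Type} [Group G] (act : G → V →+ V)

/-- `τ` acts on the basis as the matrix `M` -/
def Rep (τ : G) (M : Matrix (Fin 2) (Fin 2) (ZMod n)) : Prop :=
  act τ P = cmb hB (M 0 0) (M 1 0) ∧ act τ Q = cmb hB (M 0 1) (M 1 1)

variable {hB act}

theorem Rep.unique {τ : G} {M M' : Matrix (Fin 2) (Fin 2) (ZMod n)} (h : Rep hB act τ M) (h' : Rep hB act τ M') :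
    M = M' := by
  have h1 := cmb_inj hB (h.1.symm.trans h'.1)
  have h2 := cmb_inj hB (h.2.symm.trans h'.2)
  ext i j
  fin_cases i <;> fin_cases j
  · exact h1.1
  · exact h2.1
  · exact h1.2
  · exact h2.2

theorem Rep.app {τ : G} {M : Matrix (Fin 2) (Fin 2) (ZMod n)} (h : Rep hB act τ M) (x y : ZMod n) :
    act τ (cmb hB x y) = cmb hB (M 0 0 * x + M 0 1 * y) (M 1 0 * x + M 1 1 * y) := by
  obtain ⟨x, rfl⟩ := ZMod.intCast_surjective x
  obtain ⟨y, rfl⟩ := ZMod.intCast_surjective y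
  rw [cmb_int, map_add, map_zsmul, map_zsmul, h.1, h.2, cmb, cmb, cmb, smul_add, smul_add,
    ml_mul, ml_mul, ml_mul, ml_mul, map_add, map_add]
  rw [mul_comm (M 0 0), mul_comm (M 0 1), mul_comm (M 1 0), mul_comm (M 1 1)]
  abel

theorem Rep.mul (hmul : ∀ (σ τ : G) (v : V), act (σ * τ) v = act σ (act τ v)) {τ τ' : G}
    {M M' : Matrix (Fin 2) (Fin 2) (ZMod n)} (h : Rep hB act τ M)
    (h' : Rep hB act τ' M') : Rep hB act (τ * τ') (M * M') := by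
  constructor
  · rw [hmul, h'.1, h.app]
    simp [Matrix.mul_apply, Fin.sum_univ_two]
  · rw [hmul, h'.2, h.app]
    simp [Matrix.mul_apply, Fin.sum_univ_two]

theorem Rep.of_fix {τ : G} (h1 : act τ P = P) (h2 : act τ Q = Q) :
    Rep hB act τ (1 : Matrix (Fin 2) (Fin 2) (ZMod n)) := by
  have e1 := cmb_int hB 1 0
  have e2 := cmb_int hB 0 1
  simp only [Int.cast_one, one_smul, Int.cast_zero, zero_smul, add_zero, zero_add] at e1 e2
  constructor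
  · rw [h1]
    simp [e1]
  · rw [h2]
    simp [e2]

theorem Rep.exists (hB : Bas n P Q) (act : G → V →+ V) (τ : G) :
    ∃ M : Matrix (Fin 2) (Fin 2) (ZMod n), Rep hB act τ M := by
  obtain ⟨p, c, h1⟩ := hB.span (act τ P) (by rw [← map_zsmul, hB.hP, map_zero])
  obtain ⟨b, e, h2⟩ := hB.span (act τ Q) (by rw [← map_zsmul, hB.hQ, map_zero])
  refine ⟨!![(p : ZMod n), (b : ZMod n); (c : ZMod n), (e : ZMod n)], ?_, ?_⟩
  · rw [h1, ← cmb_int hB]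
    rfl
  · rw [h2, ← cmb_int hB]
    rfl

/-- the representation -/
noncomputable def rho (hB : Bas n P Q) (act : G → V →+ V)
    (hmul : ∀ (σ τ : G) (v : V), act (σ * τ) v = act σ (act τ v)) (hone : ∀ v : V, act 1 v = v) :
    G →* Matrix (Fin 2) (Fin 2) (ZMod n) where
  toFun τ := (Rep.exists hB act τ).choose
  map_one' := Rep.unique (Rep.exists hB act 1).choose_spec (Rep.of_fix (hone _) (hone _))
  map_mul' τ τ' := Rep.unique (Rep.exists hB act (τ * τ')).choose_spec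
    (Rep.mul hmul (Rep.exists hB act τ).choose_spec (Rep.exists hB act τ').choose_spec)

theorem rho_spec (hB : Bas n P Q) (act : G → V →+ V)
    (hmul : ∀ (σ τ : G) (v : V), act (σ * τ) v = act σ (act τ v)) (hone : ∀ v : V, act 1 v = v) (τ : G) :
    Rep hB act τ (rho hB act hmul hone τ) := (Rep.exists hB act τ).choose_spec

end

/-- The abstract part: a homomorphism on `A₀ * L`. -/
theorem ext_hom {G S : Type} [Group G] [Group S] (A₀ HL : Subgroup G) (hn : ∀ α ∈ A₀, ∀ σ ∈ HL, α * σ * α⁻¹ ∈ HL)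
    (g : A₀ →* S) (hg : ∀ α : A₀, (α : G) ∈ HL → g α = 1) :
    ∃ (A : Subgroup G) (f : A →* S), (∀ τ : G, τ ∈ A ↔ ∃ α ∈ A₀, ∃ σ ∈ HL, τ = α * σ) ∧
      ∀ (τ : A) (α : A₀), ∀ σ ∈ HL, (τ : G) = α * σ → f τ = g α := by
  classical
  let A : Subgroup G :=
    { carrier := {τ | ∃ α ∈ A₀, ∃ σ ∈ HL, τ = α * σ}
      one_mem' := ⟨1, A₀.one_mem, 1, HL.one_mem, by rw [one_mul]⟩
      mul_mem' := by
        rintro _ _ ⟨α, hα, σ, hσ, rfl⟩ ⟨α', hα', σ', hσ', rfl⟩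
        refine ⟨α * α', A₀.mul_mem hα hα', α'⁻¹ * σ * α'⁻¹⁻¹ * σ', HL.mul_mem (hn _ (A₀.inv_mem hα') _ hσ) hσ', ?_⟩
        group
      inv_mem' := by
        rintro _ ⟨α, hα, σ, hσ, rfl⟩
        refine ⟨α⁻¹, A₀.inv_mem hα, α * σ⁻¹ * α⁻¹, hn _ hα _ (HL.inv_mem hσ), ?_⟩
        group }
  have hA : ∀ τ : G, τ ∈ A ↔ ∃ α ∈ A₀, ∃ σ ∈ HL, τ = α * σ := fun τ => Iff.rfl
  choose al hal sl hsl hτ using fun τ : A => (hA τ).1 τ.2
  have hwd : ∀ (τ : A) (α : A₀), ∀ σ ∈ HL, (τ : G) = α * σ → g ⟨al τ, hal τ⟩ = g α := by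
    intro τ α σ hσ h
    have h1 : g (α⁻¹ * ⟨al τ, hal τ⟩) = 1 := by
      apply hg
      have h2 : ((α⁻¹ * ⟨al τ, hal τ⟩ : A₀) : G) = σ * (sl τ)⁻¹ := by
        have h3 : (α : G) * σ = al τ * sl τ := by rw [← h, ← hτ τ]
        show (α : G)⁻¹ * al τ = σ * (sl τ)⁻¹
        rw [inv_mul_eq_iff_eq_mul, ← mul_assoc, h3, mul_inv_cancel_right]
      rw [h2]
      exact HL.mul_mem hσ (HL.inv_mem (hsl τ))
    rw [map_mul, map_inv, inv_mul_eq_one] at h1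
    exact h1.symm
  refine ⟨A, MonoidHom.mk' (fun τ => g ⟨al τ, hal τ⟩) ?_, hA, fun τ α σ hσ h => hwd τ α σ hσ h⟩
  intro τ τ'
  rw [← map_mul]
  refine hwd (τ * τ') (⟨al τ, hal τ⟩ * ⟨al τ', hal τ'⟩) ((al τ')⁻¹ * sl τ * (al τ')⁻¹⁻¹ * sl τ')
    (HL.mul_mem (hn _ (A₀.inv_mem (hal τ')) _ (hsl τ)) (hsl τ')) ?_
  show (τ : G) * (τ' : G) = al τ * al τ' * _
  rw [hτ τ, hτ τ']
  group

theorem core (hN : Pool.Agent.P8H12.ST.S_NRM) (hG : Pool.Agent.P8H12.ST.S_GPW) : Pool.Agent.P8H12.ST.S_CORE := by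
  intro G V _ _ act hmul hone l a d hl hd ha P Q hP hQ hspan hind hSL HF HL hLF hnorm hpow
  have hl5 : 5 ≤ l := by
    have h3 : 3 < l := lt_of_le_of_lt (le_max_right _ _) hd
    by_contra h
    have h4 : l = 4 := by omega
    rw [h4] at hl
    exact absurd hl (by norm_num)
  have hB : Bas (l ^ a) P Q := ⟨hP, hQ, hspan, hind⟩
  obtain ⟨ρ, hρ⟩ : ∃ ρ : G →* Matrix (Fin 2) (Fin 2) (ZMod (l ^ a)), ∀ τ, Rep hB act τ (ρ τ) :=
    ⟨rho hB act hmul hone, rho_spec hB act hmul hone⟩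
  -- the elements of determinant one
  let D : Subgroup G := (Matrix.detMonoidHom.comp ρ).ker
  have hD : ∀ τ, τ ∈ D ↔ (ρ τ).det = 1 := fun τ => by
    rw [MonoidHom.mem_ker]
    rfl
  have hDn : ∀ (τ : G), ∀ σ ∈ D, τ * σ * τ⁻¹ ∈ D := fun τ σ hσ =>
    (inferInstance : D.Normal).conj_mem σ hσ τ
  let ρ₀ : D →* Matrix.SpecialLinearGroup (Fin 2) (ZMod (l ^ a)) :=
    { toFun := fun τ => ⟨ρ τ, (hD τ).1 τ.2⟩
      map_one' := Subtype.ext (by show ρ 1 = 1; rw [map_one])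
      map_mul' := fun τ τ' => Subtype.ext (by show ρ (τ * τ') = ρ τ * ρ τ'; rw [map_mul]) }
  -- surjectivity of the whole representation
  have hsur : ∀ M : Matrix.SpecialLinearGroup (Fin 2) (ZMod (l ^ a)), ∃ σ : D, ρ₀ σ = M := by
    intro M
    obtain ⟨p, hp⟩ := ZMod.intCast_surjective (M 0 0)
    obtain ⟨b, hb⟩ := ZMod.intCast_surjective (M 0 1)
    obtain ⟨c, hc⟩ := ZMod.intCast_surjective (M 1 0)
    obtain ⟨e, he⟩ := ZMod.intCast_surjective (M 1 1)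
    have hdet : ((l ^ a : ℕ) : ℤ) ∣ p * e - b * c - 1 := by
      rw [← ZMod.intCast_zmod_eq_zero_iff_dvd]
      push_cast
      rw [hp, hb, hc, he]
      have := M.2
      rw [Matrix.det_fin_two] at this
      rw [sub_eq_zero]
      exact this
    obtain ⟨σ, h1, h2⟩ := hSL p b c e hdet
    have h3 : Rep hB act σ (M : Matrix (Fin 2) (Fin 2) (ZMod (l ^ a))) := by
      constructor
      · rw [h1, ← cmb_int hB, hp, hc]
      · rw [h2, ← cmb_int hB, hb, he]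
    have h4 : ρ σ = (M : Matrix (Fin 2) (Fin 2) (ZMod (l ^ a))) := Rep.unique (hρ σ) h3
    exact ⟨⟨σ, (hD σ).2 (by rw [h4]; exact M.2)⟩, Subtype.ext h4⟩
  -- the image of `HF`
  have hF : (HF.subgroupOf D).map ρ₀ = ⊤ := by
    refine hG l a d hl hd ha _ fun M => ?_
    obtain ⟨σ, rfl⟩ := hsur M
    obtain ⟨r, h1, h2, h3⟩ := hpow σ
    refine ⟨r, h1, h2, ?_⟩
    rw [← map_pow]
    exact Subgroup.mem_map_of_mem _ h3
  have hF' : ∀ M : Matrix.SpecialLinearGroup (Fin 2) (ZMod (l ^ a)), ∃ τ : D, (τ : G) ∈ HF ∧ ρ₀ τ = M := by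
    intro M
    have h1 : M ∈ (HF.subgroupOf D).map ρ₀ := by rw [hF]; trivial
    obtain ⟨τ, h2, h3⟩ := h1
    exact ⟨τ, h2, h3⟩
  obtain ⟨π, hπ, hker⟩ := hN l a hl hl5 ha
  by_cases hL : (HL.subgroupOf D).map ρ₀ = ⊤
  · left
    intro p b c e hdet
    have h1 : (!![(p : ZMod (l ^ a)), (b : ZMod (l ^ a)); (c : ZMod (l ^ a)), (e : ZMod (l ^ a))] :
        Matrix (Fin 2) (Fin 2) (ZMod (l ^ a))).det = 1 := by
      rw [Matrix.det_fin_two_of]
      rw [← ZMod.intCast_zmod_eq_zero_iff_dvd] at hdet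
      push_cast at hdet
      rw [← sub_eq_zero]
      exact hdet
    have h2 : (⟨_, h1⟩ : Matrix.SpecialLinearGroup (Fin 2) (ZMod (l ^ a))) ∈ (HL.subgroupOf D).map ρ₀ := by
      rw [hL]; trivial
    obtain ⟨τ, h3, h4⟩ := h2
    have h5 : ρ τ = !![(p : ZMod (l ^ a)), (b : ZMod (l ^ a)); (c : ZMod (l ^ a)), (e : ZMod (l ^ a))] :=
      congrArg Subtype.val h4
    have h6 := hρ τ
    rw [h5] at h6
    refine ⟨τ, h3, ?_, ?_⟩
    · rw [h6.1, ← cmb_int hB]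
      rfl
    · rw [h6.2, ← cmb_int hB]
      rfl
  · right
    have hLn : ((HL.subgroupOf D).map ρ₀).Normal := by
      constructor
      rintro _ ⟨σ, hσ, rfl⟩ M
      obtain ⟨τ, hτ, rfl⟩ := hF' M
      rw [← map_mul, ← map_inv, ← map_mul]
      exact Subgroup.mem_map_of_mem _ (hnorm τ hτ σ hσ)
    have hle := hker _ hLn hL
    let A₀ : Subgroup G := HF ⊓ D
    let g : A₀ →* Matrix.ProjectiveSpecialLinearGroup (Fin 2) (ZMod l) :=
      (π.comp ρ₀).comp (Subgroup.inclusion (inf_le_right : HF ⊓ D ≤ D))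
    have hg : ∀ α : A₀, (α : G) ∈ HL → g α = 1 := by
      intro α hα
      have h1 : ρ₀ (Subgroup.inclusion (inf_le_right : HF ⊓ D ≤ D) α) ∈ (HL.subgroupOf D).map ρ₀ :=
        Subgroup.mem_map_of_mem _ hα
      exact (MonoidHom.mem_ker).1 (hle h1)
    obtain ⟨A, f, hA, hf⟩ := ext_hom A₀ HL (fun α hα σ hσ => hnorm α hα.1 σ hσ) g hg
    refine ⟨A, f, ?_, ?_, ?_, ?_, ?_, ?_⟩
    · intro σ hσ
      exact (hA σ).2 ⟨1, A₀.one_mem, σ, hσ, by rw [one_mul]⟩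
    · intro τ hτ
      obtain ⟨α, hα, σ, hσ, rfl⟩ := (hA τ).1 hτ
      exact HF.mul_mem hα.1 (hLF hσ)
    · intro τ hτ σ' hσ'
      obtain ⟨α, hα, σ, hσ, rfl⟩ := (hA σ').1 hσ'
      refine (hA _).2 ⟨τ * α * τ⁻¹, ⟨HF.mul_mem (HF.mul_mem hτ hα.1) (HF.inv_mem hτ), hDn τ α hα.2⟩,
        τ * σ * τ⁻¹, hnorm τ hτ σ hσ, ?_⟩
      group
    · intro s
      obtain ⟨M, rfl⟩ := hπ s
      obtain ⟨τ, hτ, rfl⟩ := hF' M
      have h1 : (τ : G) ∈ A₀ := ⟨hτ, τ.2⟩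
      have h2 : (τ : G) ∈ A := (hA _).2 ⟨τ, h1, 1, HL.one_mem, by rw [mul_one]⟩
      refine ⟨⟨τ, h2⟩, ?_⟩
      rw [hf ⟨τ, h2⟩ ⟨τ, h1⟩ 1 HL.one_mem (by rw [mul_one])]
      rfl
    · intro τ hτ
      rw [hf τ 1 τ hτ (by rw [Subgroup.coe_one, one_mul]), map_one]
    · intro τ hτ h1 h2
      have h3 : ρ τ = 1 := Rep.unique (hρ τ) (Rep.of_fix h1 h2)
      have h4 : τ ∈ D := (hD τ).2 (by rw [h3, Matrix.det_one])
      have h5 : τ ∈ A₀ := ⟨hτ, h4⟩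
      have h6 : τ ∈ A := (hA _).2 ⟨τ, h5, 1, HL.one_mem, by rw [mul_one]⟩
      refine ⟨h6, ?_⟩
      rw [hf ⟨τ, h6⟩ ⟨τ, h5⟩ 1 HL.one_mem (by rw [mul_one])]
      have h7 : ρ₀ ⟨τ, h4⟩ = 1 := Subtype.ext h3
      show π (ρ₀ ⟨τ, h4⟩) = 1
      rw [h7, map_one]

end Pool.Agent.P8H76.PF
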